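import Pool.Graph.R_seed8.W679.AM.Cor

/-!
# The asymmetric lens inequality for cones (all levels)

For a closed convex cone `C ⊂ ℝᵈ` with nonempty interior, a linear functional `e > 0` on `C \ 0`
and `t ∈ (0,1)`: `1 / d! ≤ |[0,e]| |P_t|`, where `[0,e] = {y : 0 ≤ ⟨y,v⟩ ≤ ⟨e,v⟩ on C}` and
`P_t = {p - q : p, q ∈ C, e(p)/t + e(q)/(1-t) ≤ 1}`.

It is the library inequality `W679AM` (lower bound of the polar volume with the harmonic body)
for `K = {y : -e/(1-t) ≤ y ≤ e/t on C}`.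
-/

set_option autoImplicit false

noncomputable section

open MeasureTheory Filter Topology Set
open scoped BigOperators Matrix ENNReal Pointwise

namespace Pool.Agent.Helper45.MAH

open W679AM H712MA

variable {d : ℕ}

/-- closed convex cones with nonempty interior -/
structure ClosedCone (C : Set (Fin d → ℝ)) : Prop where
  closed : IsClosed C
  zero : (0 : Fin d → ℝ) ∈ C
  add : ∀ x ∈ C, ∀ y ∈ C, x + y ∈ C
  smul : ∀ x ∈ C, ∀ r : ℝ, 0 ≤ r → r • x ∈ C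
  int : (interior C).Nonempty

/-- the order interval `[-e/(1-t), e/t]` -/
def KK (C : Set (Fin d → ℝ)) (e : Fin d → ℝ) (t : ℝ) : Set (Fin d → ℝ) :=
  {y | ∀ v ∈ C, -(e ⬝ᵥ v / (1 - t)) ≤ y ⬝ᵥ v ∧ y ⬝ᵥ v ≤ e ⬝ᵥ v / t}

/-- the order interval `[0, e]` -/
def OI (C : Set (Fin d → ℝ)) (e : Fin d → ℝ) : Set (Fin d → ℝ) :=
  {y | ∀ v ∈ C, 0 ≤ y ⬝ᵥ v ∧ y ⬝ᵥ v ≤ e ⬝ᵥ v}

/-- the unit ball `P_t` of the gauge `N_t` -/
def PP (C : Set (Fin d → ℝ)) (e : Fin d → ℝ) (t : ℝ) : Set (Fin d → ℝ) :=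
  {v | ∃ p ∈ C, ∃ q ∈ C, v = p - q ∧ e ⬝ᵥ p / t + e ⬝ᵥ q / (1 - t) ≤ 1}

variable {C : Set (Fin d → ℝ)} {e : Fin d → ℝ} {t : ℝ}

lemma coercive (hC : ClosedCone C) (he : ∀ v ∈ C, v ≠ 0 → 0 < e ⬝ᵥ v) :
    ∃ c : ℝ, 0 < c ∧ ∀ v ∈ C, c * ‖v‖ ≤ e ⬝ᵥ v := by
  set S : Set (Fin d → ℝ) := C ∩ Metric.sphere 0 1 with hS
  have hSc : IsCompact S := (isCompact_sphere 0 1).inter_left hC.closed
  have hcont : Continuous fun v : Fin d → ℝ => e ⬝ᵥ v := by unfold dotProduct; fun_prop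
  by_cases hne : S.Nonempty
  · obtain ⟨w, hw, hmin⟩ := hSc.exists_isMinOn hne hcont.continuousOn
    have hw0 : w ≠ 0 := by
      intro h
      have := hw.2
      rw [h] at this
      simp at this
    refine ⟨e ⬝ᵥ w, he w hw.1 hw0, fun v hv => ?_⟩
    by_cases hv0 : v = 0
    · subst hv0; simp
    · have hn : 0 < ‖v‖ := norm_pos_iff.2 hv0
      have h1 : ‖v‖⁻¹ • v ∈ S := by
        refine ⟨hC.smul v hv _ (by positivity), ?_⟩
        rw [mem_sphere_zero_iff_norm, norm_smul, norm_inv, norm_norm]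
        exact inv_mul_cancel₀ hn.ne'
      have h2 : e ⬝ᵥ w ≤ e ⬝ᵥ (‖v‖⁻¹ • v) := hmin h1
      rw [dotProduct_smul, smul_eq_mul, ← div_eq_inv_mul, le_div_iff₀ hn] at h2
      exact h2
  · refine ⟨1, one_pos, fun v hv => ?_⟩
    by_cases hv0 : v = 0
    · subst hv0; simp
    · exfalso
      have hn : 0 < ‖v‖ := norm_pos_iff.2 hv0
      refine hne ⟨‖v‖⁻¹ • v, hC.smul v hv _ (by positivity), ?_⟩
      rw [mem_sphere_zero_iff_norm, norm_smul, norm_inv, norm_norm]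
      exact inv_mul_cancel₀ hn.ne'

lemma e_nonneg (he : ∀ v ∈ C, v ≠ 0 → 0 < e ⬝ᵥ v) {v : Fin d → ℝ} (hv : v ∈ C) :
    0 ≤ e ⬝ᵥ v := by
  by_cases h : v = 0
  · subst h; simp
  · exact (he v hv h).le

lemma abs_dot_le (y v : Fin d → ℝ) : |y ⬝ᵥ v| ≤ d * ‖y‖ * ‖v‖ := by
  unfold dotProduct
  calc |∑ i, y i * v i| ≤ ∑ i, |y i * v i| := Finset.abs_sum_le_sum_abs _ _
    _ ≤ ∑ _i : Fin d, ‖y‖ * ‖v‖ := by
        refine Finset.sum_le_sum fun i _ => ?_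
        rw [abs_mul]
        exact mul_le_mul (norm_le_pi_norm y i) (norm_le_pi_norm v i) (abs_nonneg _) (norm_nonneg _)
    _ = d * ‖y‖ * ‖v‖ := by simp; ring

lemma KK_closed : IsClosed (KK C e t) := by
  have : KK C e t = ⋂ v ∈ C, {y | -(e ⬝ᵥ v / (1 - t)) ≤ y ⬝ᵥ v ∧ y ⬝ᵥ v ≤ e ⬝ᵥ v / t} := by
    ext y; simp [KK]
  rw [this]
  have hc : ∀ v : Fin d → ℝ, Continuous fun y : Fin d → ℝ => y ⬝ᵥ v := by
    intro v; unfold dotProduct; fun_prop
  exact isClosed_biInter fun v _ =>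
    (isClosed_le continuous_const (hc v)).inter (isClosed_le (hc v) continuous_const)

lemma KK_conv : Convex ℝ (KK C e t) := by
  intro x hx y hy a b ha hb hab v hv
  rw [add_dotProduct, smul_dotProduct, smul_dotProduct, smul_eq_mul, smul_eq_mul]
  obtain ⟨h1, h2⟩ := hx v hv
  obtain ⟨h3, h4⟩ := hy v hv
  set A := e ⬝ᵥ v / (1 - t)
  set B := e ⬝ᵥ v / t
  constructor
  · have e1 : -A = a * (-A) + b * (-A) := by rw [← add_mul, hab, one_mul]
    rw [e1]; gcongr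
  · have e1 : B = a * B + b * B := by rw [← add_mul, hab, one_mul]
    rw [e1]; gcongr

lemma KK_body (hC : ClosedCone C) (he : ∀ v ∈ C, v ≠ 0 → 0 < e ⬝ᵥ v) (ht0 : 0 < t) (ht1 : t < 1) :
    OBody (KK C e t) := by
  refine ⟨?_, KK_conv, ?_⟩
  · refine Metric.isCompact_of_isClosed_isBounded KK_closed ?_
    obtain ⟨v0, hv0⟩ := hC.int
    obtain ⟨r, hr, hball⟩ := Metric.isOpen_iff.1 isOpen_interior v0 hv0
    have hr2 : 0 < r / 2 := by linarith
    have hmem : ∀ i : Fin d, v0 + (r / 2) • (Pi.single i 1 : Fin d → ℝ) ∈ C := by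
      intro i
      refine interior_subset (hball ?_)
      rw [mem_ball_iff_norm, add_sub_cancel_left, norm_smul, Real.norm_of_nonneg hr2.le]
      have : ‖(Pi.single i 1 : Fin d → ℝ)‖ ≤ 1 := by
        rw [pi_norm_le_iff_of_nonneg zero_le_one]
        intro j
        by_cases h : j = i
        · subst h; simp
        · simp [Pi.single_eq_of_ne h]
      nlinarith
    have hb : ∀ v ∈ C, ∀ y ∈ KK C e t, |y ⬝ᵥ v| ≤ e ⬝ᵥ v / t + e ⬝ᵥ v / (1 - t) := by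
      intro v hv y hy
      obtain ⟨h1, h2⟩ := hy v hv
      have p0 := e_nonneg he hv
      have p1 : 0 ≤ e ⬝ᵥ v / t := by positivity
      have p2 : 0 ≤ e ⬝ᵥ v / (1 - t) := div_nonneg p0 (by linarith)
      rw [abs_le]
      constructor <;> linarith
    set M : ℝ := ∑ i : Fin d, ((e ⬝ᵥ (v0 + (r / 2) • (Pi.single i 1 : Fin d → ℝ)) / t +
      e ⬝ᵥ (v0 + (r / 2) • (Pi.single i 1 : Fin d → ℝ)) / (1 - t)) +
      (e ⬝ᵥ v0 / t + e ⬝ᵥ v0 / (1 - t))) / (r / 2) with hM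
    refine (Metric.isBounded_iff_subset_closedBall 0).2 ⟨M, fun y hy => ?_⟩
    have hterm : ∀ i : Fin d, |y i| ≤ ((e ⬝ᵥ (v0 + (r / 2) • (Pi.single i 1 : Fin d → ℝ)) / t +
      e ⬝ᵥ (v0 + (r / 2) • (Pi.single i 1 : Fin d → ℝ)) / (1 - t)) +
      (e ⬝ᵥ v0 / t + e ⬝ᵥ v0 / (1 - t))) / (r / 2) := by
      intro i
      have h1 := hb _ (hmem i) y hy
      have h2 := hb _ (interior_subset hv0) y hy
      have e1 : y ⬝ᵥ (v0 + (r / 2) • (Pi.single i 1 : Fin d → ℝ)) = y ⬝ᵥ v0 + (r / 2) * y i := by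
        rw [dotProduct_add, dotProduct_smul, dotProduct_single]
        simp
      rw [e1] at h1
      rw [le_div_iff₀ hr2]
      have h3 : |y i| * (r / 2) = |(r / 2) * y i| := by
        rw [abs_mul, abs_of_pos hr2, mul_comm]
      rw [h3]
      have h4 : |(r / 2) * y i| ≤ |y ⬝ᵥ v0 + (r / 2) * y i| + |y ⬝ᵥ v0| := by
        have h5 := abs_sub_abs_le_abs_sub ((r / 2) * y i) (-(y ⬝ᵥ v0))
        rw [sub_neg_eq_add, abs_neg, add_comm ((r / 2) * y i)] at h5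
        linarith
      linarith
    rw [mem_closedBall_zero_iff]
    have hnn : ∀ i : Fin d, 0 ≤ ((e ⬝ᵥ (v0 + (r / 2) • (Pi.single i 1 : Fin d → ℝ)) / t +
      e ⬝ᵥ (v0 + (r / 2) • (Pi.single i 1 : Fin d → ℝ)) / (1 - t)) +
      (e ⬝ᵥ v0 / t + e ⬝ᵥ v0 / (1 - t))) / (r / 2) := fun i => (abs_nonneg _).trans (hterm i)
    rw [pi_norm_le_iff_of_nonneg (Finset.sum_nonneg fun i _ => hnn i)]
    intro i
    exact (hterm i).trans (Finset.single_le_sum (f := fun i : Fin d =>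
      ((e ⬝ᵥ (v0 + (r / 2) • (Pi.single i 1 : Fin d → ℝ)) / t +
      e ⬝ᵥ (v0 + (r / 2) • (Pi.single i 1 : Fin d → ℝ)) / (1 - t)) +
      (e ⬝ᵥ v0 / t + e ⬝ᵥ v0 / (1 - t))) / (r / 2)) (fun i _ => hnn i) (Finset.mem_univ i))
  · obtain ⟨c, hc, hco⟩ := coercive hC he
    rw [mem_interior]
    refine ⟨Metric.ball 0 (c / (d + 1)), fun y hy v hv => ?_, Metric.isOpen_ball,
      Metric.mem_ball_self (by positivity)⟩
    rw [mem_ball_zero_iff] at hy
    have h1 : |y ⬝ᵥ v| ≤ e ⬝ᵥ v := by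
      refine (abs_dot_le y v).trans (le_trans ?_ (hco v hv))
      refine mul_le_mul_of_nonneg_right ?_ (norm_nonneg _)
      have h2 : ‖y‖ * (d + 1) < c := by rwa [lt_div_iff₀ (by positivity)] at hy
      nlinarith [norm_nonneg y]
    have p0 := e_nonneg he hv
    have h2 : e ⬝ᵥ v ≤ e ⬝ᵥ v / t := by
      rw [le_div_iff₀ ht0]; nlinarith
    have h3 : e ⬝ᵥ v ≤ e ⬝ᵥ v / (1 - t) := by
      rw [le_div_iff₀ (by linarith)]; nlinarith
    rw [abs_le] at h1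
    constructor <;> linarith

lemma prm_sub (hC : ClosedCone C) (he : ∀ v ∈ C, v ≠ 0 → 0 < e ⬝ᵥ v) (ht0 : 0 < t) (ht1 : t < 1) :
    prm (KK C e t) ⊆ {x | ∀ v ∈ C, |x ⬝ᵥ v| ≤ e ⬝ᵥ v} := by
  intro x hx v hv
  by_cases h0 : v = 0
  · subst h0; simp
  have hb := KK_body hC he ht0 ht1
  have h1 : hs (KK C e t) v ≤ e ⬝ᵥ v / t := GAaux.hs_le hb v _ fun y hy => (hy v hv).2
  have h2 : hs (KK C e t) (-v) ≤ e ⬝ᵥ v / (1 - t) := GAaux.hs_le hb _ _ fun y hy => by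
    have := (hy v hv).1
    rw [dotProduct_neg]; linarith
  have p1 := GAaux.hs_pos hb h0
  have p2 := GAaux.hs_pos hb (neg_ne_zero.2 h0)
  have h3 := hx v
  set H1 := hs (KK C e t) v
  set H2 := hs (KK C e t) (-v)
  set E := e ⬝ᵥ v with hE
  have hE0 : 0 < E := he v hv h0
  rw [le_div_iff₀ ht0] at h1
  rw [le_div_iff₀ (by linarith)] at h2
  -- `H1 t ≤ E`, `H2 (1-t) ≤ E`, `|x·v| (H1 + H2) ≤ H1 H2`
  have h4 : H1 * H2 ≤ E * (H1 + H2) := by
    nlinarith [mul_le_mul_of_nonneg_right h1 p2.le, mul_le_mul_of_nonneg_right h2 p1.le]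
  by_contra hcon
  push Not at hcon
  have := mul_lt_mul_of_pos_right hcon (add_pos p1 p2)
  linarith

lemma vol_sym : volume {x : Fin d → ℝ | ∀ v ∈ C, |x ⬝ᵥ v| ≤ e ⬝ᵥ v} =
    ENNReal.ofReal (2 ^ d) * volume (OI C e) := by
  have h1 : {x : Fin d → ℝ | ∀ v ∈ C, |x ⬝ᵥ v| ≤ e ⬝ᵥ v} =
      (fun x => x + (-e)) '' ((2 : ℝ) • OI C e) := by
    ext x
    constructor
    · intro hx
      refine ⟨x + e, ⟨(2 : ℝ)⁻¹ • (x + e), fun v hv => ?_, ?_⟩, by simp⟩
      · have h := abs_le.1 (hx v hv)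
        rw [smul_dotProduct, add_dotProduct, smul_eq_mul]
        constructor <;> linarith [h.1, h.2]
      · show (2 : ℝ) • (2 : ℝ)⁻¹ • (x + e) = x + e
        rw [smul_smul]; norm_num
    · rintro ⟨_, ⟨y, hy, rfl⟩, rfl⟩ v hv
      obtain ⟨h1, h2⟩ := hy v hv
      show |((2 : ℝ) • y + (-e)) ⬝ᵥ v| ≤ _
      rw [add_dotProduct, smul_dotProduct, neg_dotProduct, smul_eq_mul, abs_le]
      constructor <;> linarith
  rw [h1, image_add_right, measure_preimage_add_right, Measure.addHaar_smul]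
  simp

/-- `P_t` contains the polar body of `[-e/(1-t), e/t]` -/
lemma plr_sub (hC : ClosedCone C) (he : ∀ v ∈ C, v ≠ 0 → 0 < e ⬝ᵥ v) (ht0 : 0 < t) (ht1 : t < 1) :
    GB.plr (KK C e t) ⊆ PP C e t := by
  have ht2 : 0 < 1 - t := by linarith
  obtain ⟨c, hc, hco⟩ := coercive hC he
  have hcont : Continuous fun v : Fin d → ℝ => e ⬝ᵥ v := by unfold dotProduct; fun_prop
  -- the set of pairs is compact and convex
  set Q : Set ((Fin d → ℝ) × (Fin d → ℝ)) :=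
    {w | w.1 ∈ C ∧ w.2 ∈ C ∧ e ⬝ᵥ w.1 / t + e ⬝ᵥ w.2 / (1 - t) ≤ 1} with hQ
  have hQcl : IsClosed Q := by
    have hcc : Continuous fun w : (Fin d → ℝ) × (Fin d → ℝ) =>
        e ⬝ᵥ w.1 / t + e ⬝ᵥ w.2 / (1 - t) :=
      ((hcont.comp continuous_fst).div_const _).add ((hcont.comp continuous_snd).div_const _)
    have h3 : IsClosed {w : (Fin d → ℝ) × (Fin d → ℝ) |
        e ⬝ᵥ w.1 / t + e ⬝ᵥ w.2 / (1 - t) ≤ 1} := isClosed_le hcc continuous_const
    exact (hC.closed.preimage continuous_fst).inter ((hC.closed.preimage continuous_snd).inter h3)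
  have hQc : IsCompact Q := by
    refine Metric.isCompact_of_isClosed_isBounded hQcl
      ((Metric.isBounded_iff_subset_closedBall 0).2 ⟨1 / c, fun w hw => ?_⟩)
    obtain ⟨h1, h2, h3⟩ := hw
    have p1 := e_nonneg he h1
    have p2 := e_nonneg he h2
    have q1 : e ⬝ᵥ w.1 ≤ e ⬝ᵥ w.1 / t := by rw [le_div_iff₀ ht0]; nlinarith
    have q2 : e ⬝ᵥ w.2 ≤ e ⬝ᵥ w.2 / (1 - t) := by rw [le_div_iff₀ ht2]; nlinarith
    rw [mem_closedBall_zero_iff, Prod.norm_def, max_le_iff, le_div_iff₀ hc, le_div_iff₀ hc]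
    have r1 := hco _ h1
    have r2 := hco _ h2
    constructor <;> nlinarith
  have hPQ : PP C e t = (fun w : (Fin d → ℝ) × (Fin d → ℝ) => w.1 - w.2) '' Q := by
    ext v
    constructor
    · rintro ⟨p, hp, q, hq, rfl, h⟩
      exact ⟨(p, q), ⟨hp, hq, h⟩, rfl⟩
    · rintro ⟨w, ⟨hp, hq, h⟩, rfl⟩
      exact ⟨w.1, hp, w.2, hq, rfl, h⟩
  have hPc : IsCompact (PP C e t) := by
    rw [hPQ]; exact hQc.image (continuous_fst.sub continuous_snd)
  have hPv : Convex ℝ (PP C e t) := by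
    rintro x ⟨p, hp, q, hq, rfl, h⟩ y ⟨p', hp', q', hq', rfl, h'⟩ a b ha hb hab
    refine ⟨a • p + b • p', hC.add _ (hC.smul p hp a ha) _ (hC.smul p' hp' b hb),
      a • q + b • q', hC.add _ (hC.smul q hq a ha) _ (hC.smul q' hq' b hb), ?_, ?_⟩
    · rw [smul_sub, smul_sub]; abel
    · simp only [dotProduct_add, dotProduct_smul, smul_eq_mul]
      have e1 : (a * e ⬝ᵥ p + b * e ⬝ᵥ p') / t + (a * e ⬝ᵥ q + b * e ⬝ᵥ q') / (1 - t) =
          a * (e ⬝ᵥ p / t + e ⬝ᵥ q / (1 - t)) + b * (e ⬝ᵥ p' / t + e ⬝ᵥ q' / (1 - t)) := by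
        field_simp
        ring
      rw [e1]
      calc a * (e ⬝ᵥ p / t + e ⬝ᵥ q / (1 - t)) + b * (e ⬝ᵥ p' / t + e ⬝ᵥ q' / (1 - t))
          ≤ a * 1 + b * 1 := by gcongr
        _ = 1 := by rw [mul_one, mul_one, hab]
  intro x hx
  by_contra hxP
  obtain ⟨f, s, hf1, hf2⟩ := geometric_hahn_banach_closed_point hPv hPc.isClosed hxP
  -- `f` as a vector
  set y : Fin d → ℝ := fun i => f (Pi.single i 1) with hy
  have hfy : ∀ v, f v = y ⬝ᵥ v := by
    intro v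
    have h1 : v = ∑ i, v i • (Pi.single i 1 : Fin d → ℝ) := by
      ext j
      simp [Finset.sum_apply, Pi.single_apply]
    conv_lhs => rw [h1]
    rw [map_sum]
    simp only [map_smul, smul_eq_mul]
    unfold dotProduct
    exact Finset.sum_congr rfl fun i _ => by rw [hy]; ring
  have h00 : (0 : Fin d → ℝ) ∈ PP C e t :=
    ⟨0, hC.zero, 0, hC.zero, by simp, by simp⟩
  have hs0 : 0 < s := by
    have := hf1 0 h00
    rwa [map_zero] at this
  have hmem : s⁻¹ • y ∈ KK C e t := by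
    intro v hv
    by_cases hv0 : v = 0
    · subst hv0; simp
    have hE := he v hv hv0
    have k1 := hf1 ((t / e ⬝ᵥ v) • v) ⟨(t / e ⬝ᵥ v) • v, hC.smul v hv _ (by positivity), 0, hC.zero,
      by simp, by
        rw [dotProduct_smul, smul_eq_mul, dotProduct_zero, zero_div, add_zero,
          div_mul_cancel₀ _ hE.ne', div_self ht0.ne']⟩
    have k2 := hf1 (-(((1 - t) / e ⬝ᵥ v) • v)) ⟨0, hC.zero, ((1 - t) / e ⬝ᵥ v) • v,
      hC.smul v hv _ (by positivity), by simp, by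
        rw [dotProduct_smul, smul_eq_mul, dotProduct_zero, zero_div, zero_add,
          div_mul_cancel₀ _ hE.ne', div_self ht2.ne']⟩
    rw [hfy, dotProduct_smul, smul_eq_mul, div_mul_eq_mul_div, div_lt_iff₀ hE] at k1
    rw [hfy, dotProduct_neg, dotProduct_smul, smul_eq_mul, div_mul_eq_mul_div, neg_lt,
      lt_div_iff₀ hE] at k2
    rw [smul_dotProduct, smul_eq_mul]
    constructor
    · rw [← neg_div, div_le_iff₀ ht2, inv_mul_eq_div, div_mul_eq_mul_div, le_div_iff₀ hs0]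
      nlinarith
    · rw [le_div_iff₀ ht0, inv_mul_eq_div, div_mul_eq_mul_div, div_le_iff₀ hs0]
      nlinarith
  have h1 := hx _ hmem
  rw [smul_dotProduct, smul_eq_mul, ← hfy, inv_mul_le_iff₀ hs0, mul_one] at h1
  linarith

/-- **The asymmetric lens inequality for cones.** -/
theorem lens (hC : ClosedCone C) (he : ∀ v ∈ C, v ≠ 0 → 0 < e ⬝ᵥ v) (ht0 : 0 < t) (ht1 : t < 1) :
    ENNReal.ofReal (1 / d.factorial) ≤ volume (OI C e) * volume (PP C e t) := by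
  have hb := KK_body hC he ht0 ht1
  have h1 := GAaux.coord za hb
  have h2 : volume (prm (KK C e t)) * volume (GB.plr (KK C e t)) ≤
      (ENNReal.ofReal (2 ^ d) * volume (OI C e)) * volume (PP C e t) := by
    rw [← vol_sym]
    exact mul_le_mul' (measure_mono (prm_sub hC he ht0 ht1)) (measure_mono (plr_sub hC he ht0 ht1))
  have h3 := h1.trans h2
  have e1 : (2 : ℝ) ^ d / d.factorial = 2 ^ d * (1 / d.factorial) := by ring
  rw [e1, ENNReal.ofReal_mul (by positivity), mul_assoc] at h3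
  have hp : ENNReal.ofReal ((2 : ℝ) ^ d) ≠ 0 := by
    rw [Ne, ENNReal.ofReal_eq_zero, not_le]; positivity
  exact (ENNReal.mul_le_mul_iff_right hp ENNReal.ofReal_ne_top).1 h3

end Pool.Agent.Helper45.MAH

end
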